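import Mathlib
import Pool.Agent.Lib.Pd7404b.Moments

/-!
# Extremal Type II lattices of rank 72 are generated by their vectors of norm 12

Outline of the proof.

* For vectors `x, x'` of equal length the difference of the theta series with coefficients
  `⟪v, x⟫ ^ J` and `⟪v, x'⟫ ^ J` is (inductively on `J`) a modular form of level one and weight
  `36 + J`.  It vanishes to order `4` at the cusp, so by the Sturm bound it vanishes for `J ≤ 10`.
* Hence the shells of the lattice satisfy the moment identities of degree at most `10`.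
* Test polynomials of degree `10` then show: every lattice vector of norm at least `10` has
  inner product at least `5` in absolute value with some vector of norm `8`, so the vectors of
  norm `8` generate; and every vector of norm `8` has inner product `4` with a vector of norm `12`,
  so it is a sum of two vectors of norm `12`.
-/

open Module
open scoped RealInnerProductSpace

namespace Pool.Agent.Results.MP_d7404b_nt.GeneratedByNorm12

open Pool.Agent.Lib.Pd7404b

section

variable (L : Submodule ℤ (EuclideanSpace ℝ (Fin 72))) [DiscreteTopology L]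

lemma finrank72 : finrank ℝ (EuclideanSpace ℝ (Fin 72)) = 2 * 36 := by simp

/-- Zonal moments agree for vectors of the same length, up to degree ten. -/
lemma hA [IsZLattice ℝ L] (heven : IsEven L) (hdual : SelfDual L) (hmin : MinNorm L 4) (n : ℕ) :
    ∀ J ≤ 10, ∀ x x' : EuclideanSpace ℝ (Fin 72), ‖x‖ = ‖x'‖ → A L J n x = A L J n x' := by
  intro J hJ x x' hx
  exact (M_eq L heven hdual finrank72 (by norm_num) hmin (J0 := 10) (by norm_num) J hJ x x' hx).2 n

/-- The moments of degree `2, 4, ..., 10`. -/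
lemma moments [IsZLattice ℝ L] (heven : IsEven L) (hdual : SelfDual L) (hmin : MinNorm L 4)
    (n : ℕ) (x : EuclideanSpace ℝ (Fin 72)) :
    72 * A L 2 n x = (2 * n) * ‖x‖ ^ 2 * (S L n).card ∧
    74 * A L 4 n x = 3 * (2 * n) * ‖x‖ ^ 2 * A L 2 n x ∧
    76 * A L 6 n x = 5 * (2 * n) * ‖x‖ ^ 2 * A L 4 n x ∧
    78 * A L 8 n x = 7 * (2 * n) * ‖x‖ ^ 2 * A L 6 n x ∧
    80 * A L 10 n x = 9 * (2 * n) * ‖x‖ ^ 2 * A L 8 n x := by
  have h := hA L heven hdual hmin n
  have hV : 0 < finrank ℝ (EuclideanSpace ℝ (Fin 72)) := by simp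
  have hf : (finrank ℝ (EuclideanSpace ℝ (Fin 72)) : ℝ) = 72 := by simp
  have h0 : A L 0 n x = (S L n).card := by simp [A]
  have r0 := A_rec L h (i := 0) (by norm_num) x hV
  have r1 := A_rec L h (i := 1) (by norm_num) x hV
  have r2 := A_rec L h (i := 2) (by norm_num) x hV
  have r3 := A_rec L h (i := 3) (by norm_num) x hV
  have r4 := A_rec L h (i := 4) (by norm_num) x hV
  rw [hf] at r0 r1 r2 r3 r4
  norm_num at r0 r1 r2 r3 r4
  rw [h0] at r0
  refine ⟨?_, ?_, ?_, ?_, ?_⟩
  · linear_combination r0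
  · linear_combination r1
  · linear_combination r2
  · linear_combination r3
  · linear_combination r4

/-- inner products between lattice vectors are integers -/
lemma inner_int (hdual : SelfDual L) {v x : EuclideanSpace ℝ (Fin 72)} (hv : v ∈ L) (hx : x ∈ L) :
    ∃ k : ℤ, ⟪v, x⟫ = k := (hdual v).mp hv x hx

lemma sum_poly (n : ℕ) (x : EuclideanSpace ℝ (Fin 72)) (c1 c2 c3 c4 : ℝ) :
    ∑ v ∈ S L n, (⟪v, x⟫ ^ 10 + c4 * ⟪v, x⟫ ^ 8 + c3 * ⟪v, x⟫ ^ 6 + c2 * ⟪v, x⟫ ^ 4 +
      c1 * ⟪v, x⟫ ^ 2) =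
    A L 10 n x + c4 * A L 8 n x + c3 * A L 6 n x + c2 * A L 4 n x + c1 * A L 2 n x := by
  simp only [A, Finset.sum_add_distrib, Finset.mul_sum]

/-- Every lattice vector of norm at least ten has a large inner product with some minimal
vector. -/
lemma exists_large [IsZLattice ℝ L] (heven : IsEven L) (hdual : SelfDual L) (hmin : MinNorm L 4)
    (hne : (S L 4).Nonempty) {x : EuclideanSpace ℝ (Fin 72)} (hx : x ∈ L) (hX : 10 ≤ ‖x‖ ^ 2) :
    ∃ v ∈ S L 4, 5 ≤ |⟪v, x⟫| := by
  by_contra hcon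
  push Not at hcon
  have hzero : ∑ v ∈ S L 4, (⟪v, x⟫ ^ 10 + (-30) * ⟪v, x⟫ ^ 8 + 273 * ⟪v, x⟫ ^ 6 +
      (-820) * ⟪v, x⟫ ^ 4 + 576 * ⟪v, x⟫ ^ 2) = 0 := by
    refine Finset.sum_eq_zero fun v hv => ?_
    obtain ⟨k, hk⟩ := inner_int L hdual ((mem_S L).mp hv).1 hx
    have h1 := hcon v hv
    rw [hk] at h1 ⊢
    have h2 : |k| < 5 := by exact_mod_cast h1
    rw [abs_lt] at h2
    obtain ⟨h3, h4⟩ := h2
    interval_cases k <;> norm_num
  rw [sum_poly] at hzero
  obtain ⟨m1, m2, m3, m4, m5⟩ := moments L heven hdual hmin 4 x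
  have hcard : (0 : ℝ) < (S L 4).card := by exact_mod_cast hne.card_pos
  obtain ⟨w, hw, hXw⟩ : ∃ w : ℝ, 0 ≤ w ∧ ‖x‖ ^ 2 = 10 + w := ⟨‖x‖ ^ 2 - 10, by linarith, by ring⟩
  rw [hXw] at m1 m2 m3 m4 m5
  push_cast at m1 m2 m3 m4 m5
  have hA2 : 0 < A L 2 4 x := by
    have : 72 * A L 2 4 x = 2 * 4 * (10 + w) * (S L 4).card := m1
    have h2 : 0 < 2 * 4 * (10 + w) * ((S L 4).card : ℝ) := by positivity
    linarith
  have e4 : A L 4 4 x = (12 * (10 + w) / 37) * A L 2 4 x := by linarith
  have e6 : A L 6 4 x = (120 * (10 + w) ^ 2 / 703) * A L 2 4 x := by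
    have : A L 6 4 x = 10 * (10 + w) / 19 * A L 4 4 x := by linarith
    rw [this, e4]; ring
  have e8 : A L 8 4 x = (1120 * (10 + w) ^ 3 / 9139) * A L 2 4 x := by
    have : A L 8 4 x = 28 * (10 + w) / 39 * A L 6 4 x := by linarith
    rw [this, e6]; ring
  have e10 : A L 10 4 x = (1008 * (10 + w) ^ 4 / 9139) * A L 2 4 x := by
    have : A L 10 4 x = 9 * (10 + w) / 10 * A L 8 4 x := by linarith
    rw [this, e8]; ring
  rw [e4, e6, e8, e10] at hzero
  have hfac : (27264 / 9139 + 39120 / 9139 * w + 22680 / 9139 * w ^ 2 + 6720 / 9139 * w ^ 3 +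
      1008 / 9139 * w ^ 4) * A L 2 4 x = 0 := by
    linear_combination hzero
  have hpos : 0 < (27264 / 9139 + 39120 / 9139 * w + 22680 / 9139 * w ^ 2 + 6720 / 9139 * w ^ 3 +
      1008 / 9139 * w ^ 4) * A L 2 4 x := by positivity
  linarith

/-- The minimal vectors generate. -/
lemma mem_span_min [IsZLattice ℝ L] (heven : IsEven L) (hdual : SelfDual L) (hmin : MinNorm L 4)
    (hne : (S L 4).Nonempty) :
    ∀ N : ℕ, ∀ x ∈ L, ‖x‖ ^ 2 = 2 * N → x ∈ Submodule.span ℤ (S L 4 : Set (EuclideanSpace ℝ (Fin 72))) := by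
  intro N
  induction N using Nat.strong_induction_on with
  | h N ih =>
    intro x hx hN
    by_cases h0 : x = 0
    · rw [h0]; exact zero_mem _
    have h8 := hmin x hx h0
    push_cast at h8
    have hN4 : 4 ≤ N := by
      have : (4 : ℝ) ≤ N := by linarith
      exact_mod_cast this
    rcases Nat.eq_or_lt_of_le hN4 with h4 | h4
    · apply Submodule.subset_span
      rw [Finset.mem_coe, mem_S]
      refine ⟨hx, ?_⟩
      rw [hN, ← h4]
    · have hX : 10 ≤ ‖x‖ ^ 2 := by
        have : (5 : ℝ) ≤ N := by exact_mod_cast h4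
        linarith
      obtain ⟨v, hv, hv5⟩ := exists_large L heven hdual hmin hne hx hX
      have hvL := ((mem_S L).mp hv).1
      have hvn := ((mem_S L).mp hv).2
      push_cast at hvn
      have hvspan : v ∈ Submodule.span ℤ (S L 4 : Set (EuclideanSpace ℝ (Fin 72))) :=
        Submodule.subset_span hv
      -- general step
      have step : ∀ u : EuclideanSpace ℝ (Fin 72), u ∈ L →
          u ∈ Submodule.span ℤ (S L 4 : Set (EuclideanSpace ℝ (Fin 72))) → ‖u‖ ^ 2 = 8 →
          5 ≤ ⟪u, x⟫ → x ∈ Submodule.span ℤ (S L 4 : Set (EuclideanSpace ℝ (Fin 72))) := by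
        intro u huL hus hun hu5
        have hsub : x - u ∈ L := sub_mem hx huL
        have hnorm : ‖x - u‖ ^ 2 = ‖x‖ ^ 2 - 2 * ⟪u, x⟫ + 8 := by
          rw [norm_sub_sq_real, hun, real_inner_comm]
        obtain ⟨k, hk⟩ := heven _ hsub
        have hk0 : (0 : ℝ) ≤ k := by
          have := sq_nonneg ‖x - u‖
          linarith
        have hk0' : 0 ≤ k := by exact_mod_cast hk0
        have hkN : (k.toNat : ℝ) = k := by
          have := Int.toNat_of_nonneg hk0'
          exact_mod_cast this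
        have hlt : k.toNat < N := by
          have : (k.toNat : ℝ) < N := by rw [hkN]; linarith
          exact_mod_cast this
        have := ih k.toNat hlt (x - u) hsub (by rw [hk, hkN])
        have h9 := add_mem this hus
        rwa [sub_add_cancel] at h9
      rcases le_abs.mp hv5 with h | h
      · exact step v hvL hvspan (by linarith) h
      · refine step (-v) (neg_mem hvL) (neg_mem hvspan) (by rw [norm_neg]; linarith) ?_
        rw [inner_neg_left]
        exact h

/-- There is a vector of norm twelve. -/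
lemma nonempty12 [IsZLattice ℝ L] (heven : IsEven L) (hdual : SelfDual L) (hmin : MinNorm L 4)
    (hne : (S L 4).Nonempty) : (S L 6).Nonempty := by
  obtain ⟨x, hxS⟩ := hne
  have hx := ((mem_S L).mp hxS).1
  have hxn := ((mem_S L).mp hxS).2
  push_cast at hxn
  by_contra hcon
  -- no inner product is ± 2
  have hno : ∀ u ∈ L, ‖u‖ ^ 2 = 8 → ⟪u, x⟫ ≠ 2 := by
    intro u hu hun h2
    apply hcon
    refine ⟨x - u, (mem_S L).mpr ⟨sub_mem hx hu, ?_⟩⟩
    rw [norm_sub_sq_real, hun, hxn, real_inner_comm, h2]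
    norm_num
  have hzero : ∑ v ∈ S L 4, (⟪v, x⟫ ^ 10 + (-90) * ⟪v, x⟫ ^ 8 + 1833 * ⟪v, x⟫ ^ 6 +
      (-10960) * ⟪v, x⟫ ^ 4 + 9216 * ⟪v, x⟫ ^ 2) = 0 := by
    refine Finset.sum_eq_zero fun v hv => ?_
    have hvL := ((mem_S L).mp hv).1
    have hvn := ((mem_S L).mp hv).2
    push_cast at hvn
    obtain ⟨k, hk⟩ := inner_int L hdual hvL hx
    -- bound on |k|
    have hb : ∀ u ∈ L, ‖u‖ ^ 2 = 8 → ⟪u, x⟫ ≤ 4 ∨ ⟪u, x⟫ = 8 := by
      intro u hu hun
      by_cases hxu : x - u = 0
      · right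
        have : x = u := sub_eq_zero.mp hxu
        rw [this, real_inner_self_eq_norm_sq, hun]
      · left
        have h1 := hmin (x - u) (sub_mem hx hu) hxu
        rw [norm_sub_sq_real, hun, hxn, real_inner_comm] at h1
        push_cast at h1
        linarith
    have h1 := hb v hvL (by linarith)
    have h2 := hb (-v) (neg_mem hvL) (by rw [norm_neg]; linarith)
    have h3 := hno v hvL (by linarith)
    have h4 := hno (-v) (neg_mem hvL) (by rw [norm_neg]; linarith)
    rw [inner_neg_left] at h2 h4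
    rw [hk] at h1 h2 h3 h4 ⊢
    have h1' : k ≤ 4 ∨ k = 8 := by
      rcases h1 with h | h
      · left; exact_mod_cast h
      · right; exact_mod_cast h
    have h2' : -k ≤ 4 ∨ -k = 8 := by
      rcases h2 with h | h
      · left; exact_mod_cast h
      · right; exact_mod_cast h
    have h3' : k ≠ 2 := by
      rintro rfl; exact h3 (by norm_num)
    have h4' : k ≠ -2 := by
      rintro rfl; exact h4 (by norm_num)
    rcases h1' with h | h
    · rcases h2' with h' | h'
      · have h5 : -4 ≤ k := by omega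
        interval_cases k <;> first | (exfalso; omega) | norm_num
      · have : k = -8 := by omega
        rw [this]; norm_num
    · rw [h]; norm_num
  rw [sum_poly] at hzero
  obtain ⟨m1, m2, m3, m4, m5⟩ := moments L heven hdual hmin 4 x
  have hcard : (0 : ℝ) < (S L 4).card := by
    exact_mod_cast Finset.card_pos.mpr ⟨x, hxS⟩
  rw [hxn] at m1 m2 m3 m4 m5
  push_cast at m1 m2 m3 m4 m5
  linarith

/-- Every minimal vector is a sum of two vectors of norm twelve. -/
lemma min_mem_span12 [IsZLattice ℝ L] (heven : IsEven L) (hdual : SelfDual L) (hmin : MinNorm L 4)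
    (hne : (S L 4).Nonempty) {x : EuclideanSpace ℝ (Fin 72)} (hxS : x ∈ S L 4) :
    x ∈ Submodule.span ℤ (S L 6 : Set (EuclideanSpace ℝ (Fin 72))) := by
  have hx := ((mem_S L).mp hxS).1
  have hxn := ((mem_S L).mp hxS).2
  push_cast at hxn
  have hne6 := nonempty12 L heven hdual hmin hne
  -- it is enough to find `u` of norm 12 with `⟪u, x⟫ = 4`
  by_contra hcon
  have hno : ∀ u ∈ L, ‖u‖ ^ 2 = 12 → ⟪u, x⟫ ≠ 4 := by
    intro u hu hun h4
    apply hcon
    have h1 : x - u ∈ S L 6 := by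
      rw [mem_S]
      refine ⟨sub_mem hx hu, ?_⟩
      rw [norm_sub_sq_real, hun, hxn, real_inner_comm, h4]
      norm_num
    have h2 : u ∈ S L 6 := by
      rw [mem_S]
      exact ⟨hu, by rw [hun]; norm_num⟩
    have h3 := add_mem (Submodule.subset_span (R := ℤ) (Finset.mem_coe.mpr h1))
      (Submodule.subset_span (R := ℤ) (Finset.mem_coe.mpr h2))
    rwa [sub_add_cancel] at h3
  have hnonneg : 0 ≤ ∑ v ∈ S L 6, (⟪v, x⟫ ^ 10 + (-39) * ⟪v, x⟫ ^ 8 + 399 * ⟪v, x⟫ ^ 6 +
      (-1261) * ⟪v, x⟫ ^ 4 + 900 * ⟪v, x⟫ ^ 2) := by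
    refine Finset.sum_nonneg fun v hv => ?_
    have hvL := ((mem_S L).mp hv).1
    have hvn := ((mem_S L).mp hv).2
    push_cast at hvn
    obtain ⟨k, hk⟩ := inner_int L hdual hvL hx
    have hb : ∀ u ∈ L, ‖u‖ ^ 2 = 12 → ⟪u, x⟫ ≤ 6 := by
      intro u hu hun
      have hxu : x - u ≠ 0 := by
        intro h
        have : x = u := sub_eq_zero.mp h
        rw [this, hun] at hxn
        norm_num at hxn
      have h1 := hmin (x - u) (sub_mem hx hu) hxu
      rw [norm_sub_sq_real, hun, hxn, real_inner_comm] at h1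
      push_cast at h1
      linarith
    have h1 := hb v hvL (by linarith)
    have h2 := hb (-v) (neg_mem hvL) (by rw [norm_neg]; linarith)
    have h3 := hno v hvL (by linarith)
    have h4 := hno (-v) (neg_mem hvL) (by rw [norm_neg]; linarith)
    rw [inner_neg_left] at h2 h4
    rw [hk] at h1 h2 h3 h4 ⊢
    have h1' : k ≤ 6 := by exact_mod_cast h1
    have h2' : -k ≤ 6 := by exact_mod_cast h2
    have h3' : k ≠ 4 := by
      rintro rfl; exact h3 (by norm_num)
    have h4' : k ≠ -4 := by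
      rintro rfl; exact h4 (by norm_num)
    have h5 : -6 ≤ k := by omega
    interval_cases k <;> first | (exfalso; omega) | norm_num
  rw [sum_poly] at hnonneg
  obtain ⟨m1, m2, m3, m4, m5⟩ := moments L heven hdual hmin 6 x
  have hcard : (0 : ℝ) < (S L 6).card := by
    exact_mod_cast hne6.card_pos
  rw [hxn] at m1 m2 m3 m4 m5
  push_cast at m1 m2 m3 m4 m5
  linarith

end

/-- **Every extremal Type II lattice of rank 72 is generated by its vectors of norm 12.** -/
theorem result (L : Submodule ℤ (EuclideanSpace ℝ (Fin 72))) [DiscreteTopology L] [IsZLattice ℝ L]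
    (hunimodular : ∀ w : EuclideanSpace ℝ (Fin 72), w ∈ L ↔ ∀ v ∈ L, ∃ n : ℤ, ⟪w, v⟫ = n)
    (heven : ∀ v ∈ L, ∃ n : ℤ, ⟪v, v⟫ = 2 * n)
    (hminimum : (∀ v ∈ L, v ≠ 0 → 8 ≤ ⟪v, v⟫) ∧ ∃ v ∈ L, ⟪v, v⟫ = 8) :
    Submodule.span ℤ {v : EuclideanSpace ℝ (Fin 72) | v ∈ L ∧ ⟪v, v⟫ = 12} = L := by
  have heven' : IsEven L := by
    intro v hv
    obtain ⟨n, hn⟩ := heven v hv
    exact ⟨n, by rw [← real_inner_self_eq_norm_sq, hn]⟩
  have hmin' : MinNorm L 4 := by
    intro v hv h0
    have := hminimum.1 v hv h0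
    rw [real_inner_self_eq_norm_sq] at this
    push_cast
    linarith
  have hne : (S L 4).Nonempty := by
    obtain ⟨v, hv, hv8⟩ := hminimum.2
    refine ⟨v, (mem_S L).mpr ⟨hv, ?_⟩⟩
    rw [← real_inner_self_eq_norm_sq, hv8]
    norm_num
  have hset : {v : EuclideanSpace ℝ (Fin 72) | v ∈ L ∧ ⟪v, v⟫ = 12} =
      (S L 6 : Set (EuclideanSpace ℝ (Fin 72))) := by
    ext v
    rw [Finset.mem_coe, mem_S, Set.mem_ofPred_eq, real_inner_self_eq_norm_sq]
    norm_num
  rw [hset]
  apply le_antisymm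
  · rw [Submodule.span_le]
    intro v hv
    exact ((mem_S L).mp (Finset.mem_coe.mp hv)).1
  · intro x hx
    obtain ⟨n, hn⟩ := heven' x hx
    have hn0 : (0 : ℝ) ≤ n := by nlinarith [sq_nonneg ‖x‖]
    have hn0' : 0 ≤ n := by exact_mod_cast hn0
    have hnN : (n.toNat : ℝ) = n := by
      have := Int.toNat_of_nonneg hn0'
      exact_mod_cast this
    have h1 := mem_span_min L heven' hunimodular hmin' hne n.toNat x hx (by rw [hn, hnN])
    have h2 : Submodule.span ℤ (S L 4 : Set (EuclideanSpace ℝ (Fin 72))) ≤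
        Submodule.span ℤ (S L 6 : Set (EuclideanSpace ℝ (Fin 72))) := by
      rw [Submodule.span_le]
      intro v hv
      exact min_mem_span12 L heven' hunimodular hmin' hne (Finset.mem_coe.mp hv)
    exact h2 h1

end Pool.Agent.Results.MP_d7404b_nt.GeneratedByNorm12
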